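import Mathlib

set_option autoImplicit false

/-!
# Positive scalar curvature on closed aspherical manifolds and growth of the Yamabe invariant

No closed aspherical manifold carries a metric of positive scalar curvature if and only if the
Yamabe invariants of the closed aspherical `d`-manifolds are `o(d)` for `d → ∞` along one suitable
sequence of dimensions (for instance the factorials).
-/

namespace Pool.Agent.Results.MP_df705a_gt.YamabeGrowth

/-- The constant `a_n = 4 (n - 1) / (n - 2)` of the conformal Laplacian in dimension `n`. -/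
noncomputable def confConst (n : ℕ) : ℝ := 4 * ((n : ℝ) - 1) / ((n : ℝ) - 2)

/-- The normalised Yamabe invariant `σ / (n a_n)` of a manifold of dimension `n` with the Yamabe
invariant `σ`. -/
noncomputable def normalised (n : ℕ) (σ : ℝ) : ℝ := σ / (n * confConst n)

/-- The closed aspherical manifolds up to diffeomorphism (or a class of them that is closed under
products), a commutative monoid under products, whose unit is the point, with the classical facts
that are used. -/
structure AsphericalManifolds (X : Type*) [CommMonoid X] where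
  /-- the dimension -/
  dim : X → ℕ
  dim_mul : ∀ M N, dim (M * N) = dim M + dim N
  /-- the manifold carries a metric of positive scalar curvature -/
  PSC : X → Prop
  /-- the Yamabe invariant: the supremum of the Yamabe constants of the conformal classes; it is
  used in dimension at least three only -/
  yam : X → ℝ
  /-- dimension at most two: Gauss–Bonnet -/
  low : ∀ M, PSC M → 3 ≤ dim M
  /-- the Yamabe invariant is positive iff there is a metric of positive scalar curvature -/
  psc_iff : ∀ M, 3 ≤ dim M → (PSC M ↔ 0 < yam M)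
  /-- the product inequality of Ammann, Dahl and Humbert -/
  product : ∀ M N, 3 ≤ dim M → 3 ≤ dim N → 0 < yam M → 0 < yam N →
    normalised (dim M) (yam M) ^ ((dim M : ℝ) / (dim M + dim N : ℝ)) *
      normalised (dim N) (yam N) ^ ((dim N : ℝ) / (dim M + dim N : ℝ)) ≤
        normalised (dim (M * N)) (yam (M * N))

theorem confConst_pos {n : ℕ} (h : 3 ≤ n) : 0 < confConst n := by
  have h3 : (3 : ℝ) ≤ n := by exact_mod_cast h
  unfold confConst
  apply div_pos <;> linarith

theorem four_lt_confConst {n : ℕ} (h : 3 ≤ n) : 4 < confConst n := by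
  have h3 : (3 : ℝ) ≤ n := by exact_mod_cast h
  unfold confConst
  rw [lt_div_iff₀ (by linarith)]
  linarith

theorem normalised_pos {n : ℕ} (h : 3 ≤ n) {σ : ℝ} (hσ : 0 < σ) : 0 < normalised n σ := by
  have h3 : (0 : ℝ) < n := by
    have : (3 : ℝ) ≤ n := by exact_mod_cast h
    linarith
  exact div_pos hσ (mul_pos h3 (confConst_pos h))

theorem pos_of_normalised {n : ℕ} (h : 3 ≤ n) {σ : ℝ} (hσ : 0 < normalised n σ) : 0 < σ := by
  have h3 : (0 : ℝ) < n := by
    have : (3 : ℝ) ≤ n := by exact_mod_cast h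
    linarith
  have h4 := mul_pos hσ (mul_pos h3 (confConst_pos h))
  unfold normalised at h4
  rwa [div_mul_cancel₀ _ (mul_pos h3 (confConst_pos h)).ne'] at h4

section

variable {X : Type*} [CommMonoid X] (T : AsphericalManifolds X)

theorem dim_pow (M : X) : ∀ N : ℕ, T.dim (M ^ (N + 1)) = (N + 1) * T.dim M := by
  intro N
  induction N with
  | zero => simp
  | succ k ih =>
    rw [pow_succ, T.dim_mul, ih]
    ring

/-- the normalised Yamabe invariant does not decrease under powers -/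
theorem normalised_pow {M : X} (h3 : 3 ≤ T.dim M) (hM : 0 < T.yam M) : ∀ N : ℕ,
    normalised (T.dim M) (T.yam M) ≤
      normalised (T.dim (M ^ (N + 1))) (T.yam (M ^ (N + 1))) := by
  intro N
  induction N with
  | zero => simp
  | succ k ih =>
    have hb := normalised_pos h3 hM
    have hd := dim_pow T M k
    have hk3 : 3 ≤ T.dim (M ^ (k + 1)) := by
      rw [hd]; nlinarith
    have hy : 0 < T.yam (M ^ (k + 1)) := pos_of_normalised hk3 (hb.trans_le ih)
    have hp := T.product (M ^ (k + 1)) M hk3 h3 hy hM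
    rw [← pow_succ] at hp
    refine le_trans ?_ hp
    have hdk : (0 : ℝ) < (T.dim (M ^ (k + 1)) : ℝ) := by
      have : (3 : ℝ) ≤ (T.dim (M ^ (k + 1)) : ℝ) := by exact_mod_cast hk3
      linarith
    have hdm : (0 : ℝ) < (T.dim M : ℝ) := by
      have : (3 : ℝ) ≤ (T.dim M : ℝ) := by exact_mod_cast h3
      linarith
    have h1 : normalised (T.dim M) (T.yam M) ^
          ((T.dim (M ^ (k + 1)) : ℝ) / (T.dim (M ^ (k + 1)) + T.dim M : ℝ)) *
        normalised (T.dim M) (T.yam M) ^
          ((T.dim M : ℝ) / (T.dim (M ^ (k + 1)) + T.dim M : ℝ)) =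
        normalised (T.dim M) (T.yam M) := by
      rw [← Real.rpow_add hb, ← add_div, div_self (by linarith), Real.rpow_one]
    calc normalised (T.dim M) (T.yam M) = _ := h1.symm
      _ ≤ _ := mul_le_mul_of_nonneg_right
        (Real.rpow_le_rpow hb.le ih (div_nonneg hdk.le (by linarith)))
        (Real.rpow_nonneg hb.le _)

/-- linear growth of the Yamabe invariants of the powers -/
theorem growth {M : X} (h3 : 3 ≤ T.dim M) (hM : 0 < T.yam M) {N : ℕ} (hN : 1 ≤ N) :
    ((T.dim M : ℝ) - 2) / ((T.dim M : ℝ) - 1) * T.yam M * N ≤ T.yam (M ^ N) := by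
  obtain ⟨k, rfl⟩ : ∃ k, N = k + 1 := ⟨N - 1, by omega⟩
  have h := normalised_pow T h3 hM k
  have hd := dim_pow T M k
  have hk3 : 3 ≤ T.dim (M ^ (k + 1)) := by
    rw [hd]; nlinarith
  have hm : (3 : ℝ) ≤ (T.dim M : ℝ) := by exact_mod_cast h3
  have hc := four_lt_confConst hk3
  have hc0 := confConst_pos h3
  have hk : (0 : ℝ) < (k : ℝ) + 1 := by positivity
  have hdr : (T.dim (M ^ (k + 1)) : ℝ) = ((k : ℝ) + 1) * T.dim M := by
    rw [hd]; push_cast; ring
  unfold normalised at h
  rw [hdr, div_le_div_iff₀ (mul_pos (by linarith) hc0)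
    (mul_pos (mul_pos hk (by linarith)) (by linarith))] at h
  -- `yam M * ((k+1) m c_N) ≤ yam (M^N) * (m c_m)`
  have h2 : T.yam M * (((k : ℝ) + 1) * 4) ≤ T.yam (M ^ (k + 1)) * confConst (T.dim M) := by
    have h5 : T.yam M * (((k : ℝ) + 1) * T.dim M * 4) ≤
        T.yam (M ^ (k + 1)) * (T.dim M * confConst (T.dim M)) := by
      refine le_trans ?_ h
      have : 0 < T.yam M * (((k : ℝ) + 1) * T.dim M) :=
        mul_pos hM (mul_pos hk (by linarith))
      nlinarith
    have h6 : (T.dim M : ℝ) * (T.yam M * (((k : ℝ) + 1) * 4)) ≤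
        (T.dim M : ℝ) * (T.yam (M ^ (k + 1)) * confConst (T.dim M)) := by linarith
    exact le_of_mul_le_mul_left h6 (by linarith)
  have h7 : confConst (T.dim M) = 4 / (((T.dim M : ℝ) - 2) / ((T.dim M : ℝ) - 1)) := by
    unfold confConst
    rw [div_div_eq_mul_div]
  have hq : 0 < ((T.dim M : ℝ) - 2) / ((T.dim M : ℝ) - 1) := div_pos (by linarith) (by linarith)
  rw [h7] at h2
  have h8 : T.yam M * (((k : ℝ) + 1) * 4) * (((T.dim M : ℝ) - 2) / ((T.dim M : ℝ) - 1)) ≤
      T.yam (M ^ (k + 1)) * 4 := by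
    have := mul_le_mul_of_nonneg_right h2 hq.le
    rwa [mul_assoc (T.yam (M ^ (k + 1))), div_mul_cancel₀ _ hq.ne'] at this
  push_cast
  nlinarith

/-- If in dimension `n` the Yamabe invariants of some `N`-th powers are small compared with their
dimension, then no manifold of dimension `n` has positive scalar curvature. -/
theorem fixed_dim {n : ℕ} (hn : 3 ≤ n)
    (h : ∀ ε : ℝ, 0 < ε → ∃ N : ℕ, 1 ≤ N ∧ ∀ M, T.dim M = n → T.yam (M ^ N) ≤ ε * (n * N)) :
    ∀ M, T.dim M = n → ¬ T.PSC M := by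
  intro M hM hP
  have h3 : 3 ≤ T.dim M := by omega
  have hy := (T.psc_iff M h3).1 hP
  have hm : (3 : ℝ) ≤ (T.dim M : ℝ) := by exact_mod_cast h3
  have hq : 0 < ((T.dim M : ℝ) - 2) / ((T.dim M : ℝ) - 1) := div_pos (by linarith) (by linarith)
  have hc : 0 < ((T.dim M : ℝ) - 2) / ((T.dim M : ℝ) - 1) * T.yam M / (2 * T.dim M) := by
    have := mul_pos hq hy
    positivity
  obtain ⟨N, hN, h1⟩ := h _ hc
  have h2 := (growth T h3 hy hN).trans (h1 M hM)
  have hN' : (1 : ℝ) ≤ N := by exact_mod_cast hN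
  rw [← hM] at h2
  have h4 : ((T.dim M : ℝ) - 2) / ((T.dim M : ℝ) - 1) * T.yam M / (2 * T.dim M) *
      (T.dim M * N) = ((T.dim M : ℝ) - 2) / ((T.dim M : ℝ) - 1) * T.yam M * N / 2 := by
    field_simp
  rw [h4] at h2
  have h5 : 0 < ((T.dim M : ℝ) - 2) / ((T.dim M : ℝ) - 1) * T.yam M * N := by
    have := mul_pos hq hy
    positivity
  linarith

end

/-- Let `X` be the monoid of closed aspherical manifolds (or a class closed under products).

(1) If `M` has positive scalar curvature, then the Yamabe invariants of its powers grow linearly: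
`σ (M ^ N) ≥ ((m - 2) / (m - 1)) σ (M) N` with `m = dim M`.

(2) For every `M` of dimension at least three, either `σ (M ^ N) ≤ 0` for all `N ≥ 1`, or there are
`K ≥ 1` and `c > 0` with `σ (M ^ (K N)) ≥ c N` for all `N ≥ 1`.

(3) If `n ≥ 3` and for every `ε > 0` there is `N ≥ 1` with `σ (M ^ N) ≤ ε n N` for all
`n`-dimensional `M`, then no `n`-dimensional `M` has positive scalar curvature.

(4) No manifold in the class has positive scalar curvature if and only if there is a set `D` of
dimensions that contains infinitely many multiples of every `n ≥ 1`, such that for every `ε > 0`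
all manifolds in the class of sufficiently large dimension `d` in `D` satisfy `σ ≤ ε d`. -/
theorem result {X : Type*} [CommMonoid X] (T : AsphericalManifolds X) :
    (∀ M, T.PSC M → ∀ N : ℕ, 1 ≤ N →
      ((T.dim M : ℝ) - 2) / ((T.dim M : ℝ) - 1) * T.yam M * N ≤ T.yam (M ^ N)) ∧
    (∀ M, 3 ≤ T.dim M → (∀ N : ℕ, 1 ≤ N → T.yam (M ^ N) ≤ 0) ∨
      ∃ K : ℕ, 1 ≤ K ∧ ∃ c : ℝ, 0 < c ∧ ∀ N : ℕ, 1 ≤ N → c * N ≤ T.yam (M ^ (K * N))) ∧
    (∀ n : ℕ, 3 ≤ n →
      (∀ ε : ℝ, 0 < ε → ∃ N : ℕ, 1 ≤ N ∧ ∀ M, T.dim M = n → T.yam (M ^ N) ≤ ε * (n * N)) →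
      ∀ M, T.dim M = n → ¬ T.PSC M) ∧
    ((∀ M, ¬ T.PSC M) ↔ ∃ D : Set ℕ, (∀ n : ℕ, 1 ≤ n → {d ∈ D | n ∣ d}.Infinite) ∧
      ∀ ε : ℝ, 0 < ε → ∃ d₀ : ℕ, ∀ d ∈ D, d₀ ≤ d → ∀ M, T.dim M = d → T.yam M ≤ ε * d) := by
  refine ⟨?_, ?_, fun n hn h => fixed_dim T hn h, ?_, ?_⟩
  · intro M hM N hN
    have h3 := T.low M hM
    exact growth T h3 ((T.psc_iff M h3).1 hM) hN
  · intro M h3
    by_cases h : ∀ N : ℕ, 1 ≤ N → T.yam (M ^ N) ≤ 0
    · exact Or.inl h
    · right
      push Not at h
      obtain ⟨K, hK, hy⟩ := h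
      obtain ⟨k, rfl⟩ : ∃ k, K = k + 1 := ⟨K - 1, by omega⟩
      have hd := dim_pow T M k
      have hk3 : 3 ≤ T.dim (M ^ (k + 1)) := by
        rw [hd]; nlinarith
      have hm : (3 : ℝ) ≤ (T.dim (M ^ (k + 1)) : ℝ) := by exact_mod_cast hk3
      refine ⟨k + 1, hK, ((T.dim (M ^ (k + 1)) : ℝ) - 2) / ((T.dim (M ^ (k + 1)) : ℝ) - 1) *
        T.yam (M ^ (k + 1)), mul_pos (div_pos (by linarith) (by linarith)) hy, fun N hN => ?_⟩
      rw [pow_mul]
      exact growth T hk3 hy hN
  · intro h
    refine ⟨Set.univ, fun n hn => ?_, fun ε hε => ⟨3, fun d _ hd M hM => ?_⟩⟩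
    · refine Set.infinite_of_not_bddAbove ?_
      rintro ⟨b, hb⟩
      have h1 : n * (b + 1) ∈ {d ∈ (Set.univ : Set ℕ) | n ∣ d} := ⟨trivial, Dvd.intro _ rfl⟩
      have h2 := hb h1
      nlinarith
    · have h1 : ¬ 0 < T.yam M := fun h2 => h M ((T.psc_iff M (by omega)).2 h2)
      have h2 : (0 : ℝ) ≤ ε * d := by positivity
      linarith
  · rintro ⟨D, hD, h⟩ M hM
    have h3 := T.low M hM
    refine fixed_dim T h3 (fun ε hε => ?_) M rfl hM
    obtain ⟨d₀, h1⟩ := h ε hε
    obtain ⟨d, ⟨h4, N, h5⟩, h6⟩ := (hD (T.dim M) (by omega)).exists_gt d₀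
    have hN : 1 ≤ N := by
      rcases Nat.eq_zero_or_pos N with rfl | h7
      · simp at h5; omega
      · exact h7
    refine ⟨N, hN, fun M' hM' => ?_⟩
    obtain ⟨k, rfl⟩ : ∃ k, N = k + 1 := ⟨N - 1, by omega⟩
    have h7 : T.dim (M' ^ (k + 1)) = d := by
      rw [dim_pow T M' k, hM', h5, mul_comm]
    have h8 := h1 d h4 h6.le _ h7
    rw [h5] at h8
    exact_mod_cast h8

end Pool.Agent.Results.MP_df705a_gt.YamabeGrowth
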